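import Pool.Agent.Helper27.RV.St

/-!
# Project RV, module DW
-/

set_option autoImplicit false

open Cardinal Ordinal Set

universe u

namespace Pool.Agent.Helper81.RV

open Pool.Agent.Helper27.RV

/-- a cofinal sequence -/
theorem dw_seq {t : Ordinal.{u}} (h : t.cof = ℵ₀) :
    ∃ g : ℕ → Ordinal.{u}, (∀ k, 0 < g k) ∧ (∀ k, g k < t) ∧ ∀ a < t, ∃ k, a < g k := by
  have hlim : Order.IsSuccLimit t := Ordinal.aleph0_le_cof.1 h.ge
  have h0 : 0 < t := hlim.bot_lt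
  obtain ⟨g, hg1, hg2⟩ := enum_cof (K := ULift.{u} ℕ) (t := t) (by
    rw [h, mk_uLift, mk_nat, lift_aleph0]) h0
  refine ⟨fun k => g ⟨k⟩ + 1, fun k => ?_, fun k => ?_, fun a ha => ?_⟩
  · exact lt_of_le_of_lt zero_le (lt_add_one _)
  · exact hlim.add_one_lt (hg1 _)
  · obtain ⟨k, hk⟩ := hg2 a ha
    exact ⟨k.down, hk.trans_lt (lt_add_one _)⟩

theorem pDW (h1 : StJOIN.{u}) : StDW.{u} := by
  intro K al m L J c hC hL hJ hLarge
  classical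
  obtain ⟨B, hB⟩ : ∃ B : Set L, B = {l | (c l).cof = ℵ₀} := ⟨_, rfl⟩
  rw [← hB]
  have hg : ∀ l : B, ∃ g : ℕ → Ordinal.{u}, (∀ k, 0 < g k) ∧ (∀ k, g k < c l) ∧
      ∀ a < c l, ∃ k, a < g k := by
    rintro ⟨l, hl⟩
    rw [hB] at hl
    exact dw_seq hl
  choose g hg0 hg1 hg2 using hg
  by_contra hns
  -- the extension
  obtain ⟨p, hp⟩ : ∃ p : B × ℕ → L, ∀ y, p y = (y.1 : L) := ⟨fun y => (y.1 : L), fun _ => rfl⟩
  obtain ⟨c', hc'⟩ : ∃ c' : B × ℕ → Ordinal.{u}, ∀ y, c' y = g y.1 y.2 :=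
    ⟨fun y => g y.1 y.2, fun _ => rfl⟩
  have hfib : ∀ l, (p ⁻¹' {l}).Countable := by
    intro l
    by_cases hl : l ∈ B
    · refine (countable_range (fun n : ℕ => ((⟨l, hl⟩, n) : B × ℕ))).mono ?_
      rintro ⟨y, n⟩ hy
      refine ⟨n, ?_⟩
      have h2 : (y : L) = l := by
        have := hp (y, n)
        rw [mem_preimage, mem_singleton_iff, this] at hy
        exact hy
      have h3 : y = ⟨l, hl⟩ := Subtype.ext h2
      rw [h3]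
    · have : p ⁻¹' {l} = ∅ := by
        ext y
        simp only [mem_preimage, mem_singleton_iff, mem_empty_iff_false, iff_false]
        intro hy
        apply hl
        rw [← hy, hp]
        exact y.1.2
      rw [this]
      exact countable_empty
  -- the ideals
  have hQ : ∀ J' : Set (Set (B × ℕ)), IsIdl J' → (∀ X ⊆ B, p ⁻¹' X ∈ J' → X ∈ J) →
      ¬ Large K m J' c' univ := by
    intro J' hJ' hJ2 hLa
    apply hns
    refine ⟨B × ℕ, p, J', c', hJ', ?_, hfib, hJ2, ?_, hLa⟩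
    · intro y
      rw [hp]
      exact y.1.2
    · intro y
      rw [hc', hp]
      exact hg1 _ _
  obtain ⟨Q, hQd⟩ : ∃ Q : Set (Set (Set (B × ℕ))),
      Q = {J' | IsIdl J' ∧ ∀ X ⊆ B, p ⁻¹' X ∈ J' → X ∈ J} := ⟨_, rfl⟩
  have hLc : #(B × ℕ) ≤ al := by
    have e1 : #(B × ℕ) = #B * ℵ₀ := by simp
    rw [e1]
    calc #B * ℵ₀ ≤ al * al := mul_le_mul' ((mk_set_le B).trans hL) hC.inf
      _ = al := mul_eq_self hC.inf
  have hQc : #Q < m := ((mk_set_le Q).trans (hC.mk_set_set hLc)).trans_lt hC.lt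
  obtain ⟨ι, hι, E, hE⟩ := h1 K m (B × ℕ) Q (fun q => q.1) (fun _ => c') (fun _ => univ) hC.reg
    hQc (by
      rintro ⟨J', hJ'⟩
      rw [hQd] at hJ'
      exact hQ J' hJ'.1 hJ'.2)
  -- the boxes on `L`
  have hw : #K = #(K × ℕ) := by
    have e1 : #(K × ℕ) = #K * ℵ₀ := by simp
    rw [e1, mul_aleph0_eq hC.aleph0_le]
  obtain ⟨w⟩ := Cardinal.eq.1 hw
  obtain ⟨E', hE'⟩ : ∃ E' : ι → L → K → Ordinal.{u}, ∀ i l k (h : l ∈ B),
      E' i l k = E i (⟨l, h⟩, (w k).2) (w k).1 :=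
    ⟨fun i l k => if h : l ∈ B then E i (⟨l, h⟩, (w k).2) (w k).1 else 0,
      fun i l k h => dif_pos h⟩
  obtain ⟨S, hS1, hS2⟩ := hLarge ι hι E'
  obtain ⟨S', hS'⟩ : ∃ S' : B × ℕ → ℕ → Ordinal.{u}, ∀ y n,
      S' y n = if S y.1 n < g y.1 y.2 then S y.1 n else 0 := ⟨_, fun _ _ => rfl⟩
  have hS'lt : ∀ y n, S' y n < c' y := by
    intro y n
    rw [hS', hc']
    split_ifs with h
    · exact h
    · exact hg0 _ _
  obtain ⟨J', hJ'⟩ : ∃ J' : Set (Set (B × ℕ)), ∀ Y, Y ∈ J' ↔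
      ∃ X ∈ J, Cvd E S' (Y \ p ⁻¹' X) := ⟨{Y | ∃ X ∈ J, Cvd E S' (Y \ p ⁻¹' X)}, fun _ => Iff.rfl⟩
  have hI1 : IsIdl J' := by
    constructor
    · intro Y Z hYZ hZ
      rw [hJ'] at hZ ⊢
      obtain ⟨X, hX, h2⟩ := hZ
      exact ⟨X, hX, h2.mono (sdiff_subset_sdiff_left hYZ)⟩
    · intro R F hR hF
      have hF' : ∀ q, ∃ X ∈ J, Cvd E S' (F q \ p ⁻¹' X) := fun q => (hJ' _).1 (hF q)
      choose X hX hcv using hF'
      choose I hI1 hI2 using hcv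
      rw [hJ']
      refine ⟨⋃ q, X q, hJ.un R X hR hX, ⋃ q, I q, ?_, ?_⟩
      · calc #(⋃ q, I q : Set ι) ≤ #R * ⨆ q, #(I q) := mk_iUnion_le _
          _ ≤ ℵ_ 1 * ℵ_ 1 := mul_le_mul' hR (ciSup_le' hI1)
          _ = ℵ_ 1 := mul_eq_self (aleph0_le_aleph 1)
      · rintro y ⟨hy1, hy2⟩ n
        obtain ⟨q, hq⟩ := mem_iUnion.1 hy1
        obtain ⟨i, hi, k, hk⟩ := hI2 q y ⟨hq, fun h => hy2 (mem_iUnion.2 ⟨q, h⟩)⟩ n
        exact ⟨i, mem_iUnion.2 ⟨q, hi⟩, k, hk⟩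
  have hI2 : ∀ X ⊆ B, p ⁻¹' X ∈ J' → X ∈ J := by
    intro X1 hX1 h2
    rw [hJ'] at h2
    obtain ⟨X, hX, I, hI, h3⟩ := h2
    have h4 : Cvd E' S (X1 \ X) := by
      refine ⟨I, hI, ?_⟩
      rintro l ⟨hl1, hl2⟩ n
      have hlB := hX1 hl1
      obtain ⟨k, hk⟩ := hg2 ⟨l, hlB⟩ (S l n) (hS1 l (mem_univ _) n)
      obtain ⟨i, hi, k', hk'⟩ := h3 (⟨l, hlB⟩, k) (by
        constructor
        · rw [mem_preimage, hp]
          exact hl1
        · rw [mem_preimage, hp]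
          exact hl2) n
      refine ⟨i, hi, w.symm (k', k), ?_⟩
      rw [hE' _ _ _ hlB, Equiv.apply_symm_apply, ← hk', hS', if_pos hk]
    have h5 : X1 \ X ∈ J := hS2 _ (subset_univ _) h4
    exact hJ.sub _ _ (fun l hl => by
      by_cases h : l ∈ X
      · exact Or.inr h
      · exact Or.inl ⟨hl, h⟩) (hJ.union h5 hX)
  have hmem : J' ∈ Q := by
    rw [hQd]
    exact ⟨hI1, hI2⟩
  obtain ⟨B0, -, hB0, hB1⟩ := hE ⟨J', hmem⟩ S' (fun y _ n => hS'lt y n)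
  apply hB1
  show B0 ∈ J'
  rw [hJ']
  exact ⟨∅, hJ.empty, hB0.mono sdiff_subset⟩

end Pool.Agent.Helper81.RV
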