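import Pool.Agent.Helper27.RV.St

/-!
# Project RV, module KEY
-/

set_option autoImplicit false

open Cardinal Ordinal Set

universe u

namespace Pool.Agent.Helper81.RV

open Pool.Agent.Helper27.RV Pool.Agent.Helper65.GS

theorem pKEY (hKA : StKA.{u}) (hKM : StKM.{u}) (hCVO : StCVO.{u}) (hNCT : StNCT.{u})
    (hSELF : StSELF.{u}) (hSUBD : StSUBD.{u}) (hUND : StUND.{u}) : StKEY.{u} := by
  intro K al m L D β J c t hC hL hJ hLarge hSP hD hβ hKt htm hcov
  classical
  have hT : #t.ToType = t.card := mk_toType t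
  obtain ⟨S, r, s, N, hr, hUnc, hN, hs, hS⟩ := hKA K al m L t.ToType J c hC hL hJ hLarge
    (by rw [hT]; exact hKt) (by rw [hT]; exact htm)
  have hne : Nonempty β := by
    rw [← mk_ne_zero_iff]
    exact (aleph0_pos.trans_le hβ).ne'
  obtain ⟨B0, hB0⟩ : ∃ B0 : Set L, B0 = {l | IsCard (c l) ∧ ℵ₀ < (c l).cof ∧
    ∀ s < c l, Cov K β #D (c l).card s} := ⟨_, rfl⟩
  rw [← hB0]
  obtain ⟨B, hB⟩ : ∃ B : Set L, B = B0 \ N := ⟨_, rfl⟩
  have hBl : ∀ l ∈ B, ∃ lam < (c l).card.ord, ∃ P : Ordinal.{u} → K → Ordinal.{u},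
      ∀ y : β → Ordinal.{u}, (∀ e, y e < s l) →
        ∃ g : D → Ordinal.{u}, (∀ d, g d < lam) ∧ ∀ e, ∃ d k, y e = P (g d) k := by
    intro l hl
    rw [hB] at hl
    obtain ⟨hl1, hl2⟩ := hl
    rw [hB0] at hl1
    exact hCVO K β D (c l).card (s l) hne (hl1.2.2 (s l) (hs l hl1.2.1))
  have hBl' : ∀ l, ∃ lam : Ordinal.{u}, ∃ P : Ordinal.{u} → K → Ordinal.{u}, l ∈ B →
      lam < (c l).card.ord ∧ ∀ y : β → Ordinal.{u}, (∀ e, y e < s l) →
        ∃ g : D → Ordinal.{u}, (∀ d, g d < lam) ∧ ∀ e, ∃ d k, y e = P (g d) k := by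
    intro l
    by_cases hl : l ∈ B
    · obtain ⟨lam, h1, P, h2⟩ := hBl l hl
      exact ⟨lam, P, fun _ => ⟨h1, h2⟩⟩
    · exact ⟨0, fun _ _ => 0, fun h => absurd h hl⟩
  choose lam P hP using hBl'
  have hlarge : Large K m J lam B := by
    refine hKM K al m L t.ToType D β J S r B s lam P hC hL hJ hr hUnc hSP hD hβ ?_ ?_ ?_
    · intro l hl a n
      rw [hB] at hl
      obtain ⟨hl1, hl2⟩ := hl
      rw [hB0] at hl1
      exact hS l hl1.2.1 hl2 a n
    · intro l hl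
      exact (hP l hl).2
    · intro ι Dd hι hDd
      exact hNCT K β #D m t hcov ι Dd hι hDd
  have hsm : Small K m J c B := by
    refine hSELF K m L J c lam B hJ hlarge ?_
    intro l hl
    have h1 := (hP l hl).1
    rw [hB] at hl
    obtain ⟨hl1, hl2⟩ := hl
    rw [hB0] at hl1
    exact h1.trans_le (ord_card_le _)
  have hun : Small K m J c (⋃ q : ULift.{u} Bool, if q.down then B else N) := by
    refine hUND K m L (ULift.{u} Bool) J c _ hJ ?_ ?_
    · refine le_trans ?_ (aleph0_le_aleph 1)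
      exact (lt_aleph0_of_finite _).le
    · rintro ⟨q⟩
      cases q
      · simpa using hN
      · simpa using hsm
  refine hSUBD K m L J c _ B0 hun ?_
  intro l hl
  rw [mem_iUnion]
  by_cases h : l ∈ N
  · exact ⟨⟨false⟩, by simpa using h⟩
  · refine ⟨⟨true⟩, ?_⟩
    have : l ∈ B := by
      rw [hB]
      exact ⟨hl, h⟩
    simpa using this

end Pool.Agent.Helper81.RV
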